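import Pool.Agent.Q100.WB

/-!
# Weak Baire measurability of the norm does not pass from a dense subspace to the whole space

The definitions are in `Pool/Agent/Q100/WBDefs.lean`. The example is a Hilbert space
`ℓ₂(T ∪ 2^ℕ)`, where `T` is the set of nodes of the binary tree.
-/

set_option autoImplicit false

namespace Pool.Agent.Results.MP_51339e_an.DenseSubspace

open Q100.WB

universe w

/-- The negated form of Q1, for a dense linear subspace `A`, over the real and over the complex
field. -/
theorem result : ∀ (𝕜 : Type w) [RCLike 𝕜],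
    ∃ (X : Type w) (_ : NormedAddCommGroup X) (_ : NormedSpace 𝕜 X) (_ : CompleteSpace X)
      (A : Submodule 𝕜 X), closure (A : Set X) = Set.univ ∧
      BaMeasurableOn 𝕜 (A : Set X) (fun x => ‖x‖) ∧ ¬ BaMeasurable 𝕜 (fun x : X => ‖x‖) := by
  intro 𝕜 _
  refine ⟨HS 𝕜, inferInstance, inferInstance, inferInstance, DS 𝕜, ?_, norm_measurable_on,
    norm_not_measurable⟩
  have h := congrArg (fun K : Submodule 𝕜 (HS 𝕜) => (K : Set (HS 𝕜))) (dense_DS (𝕜 := 𝕜))
  simpa using h

end Pool.Agent.Results.MP_51339e_an.DenseSubspace
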